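import Pool.Agent.Q138.PS.UP
import Pool.Agent.Results.MP_e426f4_ag.ProductsOfConics

/-!
# Brauer-Manin obstruction for the fibrations `yᵢ² - aᵢ zᵢ² = bᵢ t (f(t) ± ⌊α P(n)⌋)` in products of conics

Let `q ≥ 2`. Outside a set of real numbers of Hausdorff dimension at most `q / (q + 1 / (q 2 ^ (q - 1)))` (that is `8 / 9` for
`q = 2`) every `α > 0` has the following property, for ALL integral polynomials `f` of positive degree, all nonzero `aᵢ`, `bᵢ`
and all finite sets `T` of primes containing the small and the bad ones: there is `η > 0` such that for ALL integral polynomials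
`P` of degree `q` with positive leading coefficient and coefficients of size at most `M ^ η` and for `k = ± ⌊α P(n)⌋`, for all
but `M / (log M) ^ U` of the `n ≤ M` (for every `U`), families of points of `W_k : yᵢ² - aᵢ zᵢ² = bᵢ t (f(t) + k) ≠ 0` over the
`ℚ_p`, `p` in `T`, and of a real point, can be approximated by rational points, if the sum of the invariants of each `(aᵢ, t)`
at these points is `0` or if the degree of `f` is odd.
-/

set_option autoImplicit false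

namespace Pool.Agent.Results.MP_e426f4_ag.ConicsAlongRealMultiples

open Finset Filter Topology Polynomial
open Pool.Agent.Q138.PS
open Pool.Agent.Results.MP_e426f4_ag.ProductsOfConics (WB)

open Classical in
/-- the number of the `1 ≤ n ≤ M` for which `WB` fails for `k = ⌊α P(n)⌋` or for `k = -⌊α P(n)⌋` -/
noncomputable def bad {r : ℕ} (f : ℤ[X]) (a b : Fin r → ℤ) (T : Finset Nat.Primes) (N : ℕ) (α : ℝ) (P : ℤ[X]) (M : ℕ) : ℕ :=
  ((Icc 1 M).filter fun n : ℕ => ¬ WB f a b T N ⌊α * ((P.eval (n : ℤ) : ℤ) : ℝ)⌋₊ ∨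
    ¬ WB f a b T N (-(⌊α * ((P.eval (n : ℤ) : ℤ) : ℝ)⌋₊ : ℤ))).card

/-- `k` or `- k` is exceptional -/
def Bad (i : Σ r : ℕ, ℤ[X] × (Fin r → ℤ) × (Fin r → ℤ) × Finset Nat.Primes × ℕ) (n : ℕ) : Prop :=
  ¬ WB i.2.1 i.2.2.1 i.2.2.2.1 i.2.2.2.2.1 i.2.2.2.2.2 n ∨ ¬ WB i.2.1 i.2.2.1 i.2.2.2.1 i.2.2.2.2.1 i.2.2.2.2.2 (-(n : ℤ))

theorem bad_eq {r : ℕ} (f : ℤ[X]) (a b : Fin r → ℤ) (T : Finset Nat.Primes) (N : ℕ) (α : ℝ) (P : ℤ[X]) (M : ℕ) :
    (bad f a b T N α P M : ℝ) = cnP (Bad ⟨r, f, a, b, T, N⟩) α P M := by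
  classical
  unfold bad cnP cn Bad
  refine congrArg _ (congrArg _ ?_)
  ext n
  simp only [mem_filter]

theorem countable_pol : Countable ℤ[X] :=
  Cardinal.mk_le_aleph0_iff.1 (by
    refine (Polynomial.cardinalMk_le_max (R := ℤ)).trans ?_
    simp)

/-- **Theorem.** -/
theorem result (q : ℕ) (hq : 2 ≤ q) :
    ∃ E : Set ℝ, dimH E ≤ ENNReal.ofReal (q / (q + 1 / ((q : ℝ) * 2 ^ (q - 1)))) ∧ ∀ α : ℝ, 0 < α → α ∉ E →
      ∀ (r : ℕ) (f : ℤ[X]) (_ : 1 ≤ f.natDegree) (a b : Fin r → ℤ) (_ : ∀ i, a i ≠ 0) (_ : ∀ i, b i ≠ 0)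
        (T : Finset Nat.Primes)
        (_ : ∀ p : Nat.Primes, ((p : ℕ) ≤ 2 * f.natDegree ∨ ((p : ℕ) : ℤ) ∣ f.leadingCoeff * ∏ i, (a i * b i)) → p ∈ T)
        (N : ℕ), ∃ η : ℝ, 0 < η ∧ ∀ U : ℕ, ∀ᶠ M : ℕ in atTop, ∀ P : ℤ[X], P.natDegree = q → 0 < P.leadingCoeff →
        (∀ j, |((P.coeff j : ℤ) : ℝ)| ≤ (M : ℝ) ^ η) → (bad f a b T N α P M : ℝ) ≤ M / Real.log M ^ U := by
  classical
  haveI := countable_pol
  obtain ⟨E, hE, hg⟩ := exc_pow q hq Bad
  refine ⟨E, hE, fun α hα hαE r f hf a b ha hb T hT N => ?_⟩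
  obtain ⟨η, hη, h1⟩ := hg α hα hαE ⟨r, f, a, b, T, N⟩
  refine ⟨η, hη, fun U => ?_⟩
  have h2 := h1 (fun V => by
    obtain ⟨X₀, hX⟩ := Pool.Agent.Results.MP_e426f4_ag.ProductsOfConics.result r f hf a b ha hb T hT N V
    refine ⟨X₀, fun Y hY => le_trans ?_ (hX Y hY)⟩
    have h3 := two_sides (fun k => ¬ WB f a b T N k) Y
    refine le_trans (le_of_eq ?_) (h3.trans (le_of_eq ?_))
    · rfl
    · refine congrArg _ (congrArg _ ?_)
      ext k
      simp only [mem_filter]) U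
  filter_upwards [h2] with M g P hdeg hlead hco
  rw [bad_eq]
  exact g P hdeg hlead hco

end Pool.Agent.Results.MP_e426f4_ag.ConicsAlongRealMultiples
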