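import Pool.Agent.Q138.PS.XO
import Pool.Agent.Results.MP_e426f4_ag.ProductsOfConics

/-!
# Brauer-Manin obstruction for the fibrations `yᵢ² - aᵢ zᵢ² = bᵢ t (f(t) + k)`, `k` near powers of a real number

For almost every real `α > 1`: for ALL integral polynomials `f` of positive degree, all nonzero `aᵢ`, `bᵢ`, all finite sets `T`
of primes containing the small and the bad ones, all `N`, all positive algebraic numbers `b`, all integers `j`, all `D`, `κ` and
all large `n`: for ALL integers `k ≠ 0` with `| |k| - b n ^ j α ^ n| ≤ D n ^ κ` families of points of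
`W_k : yᵢ² - aᵢ zᵢ² = bᵢ t (f(t) + k) ≠ 0` over the `ℚ_p`, `p` in `T`, and of a real point, can be approximated by rational
points, if the sum of the invariants of each `(aᵢ, t)` at these points is `0` or if the degree of `f` is odd.
-/

set_option autoImplicit false

namespace Pool.Agent.Results.MP_e426f4_ag.ConicsNearPowers

open Finset Filter Topology Polynomial MeasureTheory
open Pool.Agent.Q138.PS
open Pool.Agent.Results.MP_e426f4_ag.ProductsOfConics (WB)

theorem countable_pol : Countable ℤ[X] :=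
  Cardinal.mk_le_aleph0_iff.1 (by
    refine (Polynomial.cardinalMk_le_max (R := ℤ)).trans ?_
    simp)

/-- **Theorem.** -/
theorem result : ∀ᵐ α : ℝ, 1 < α → ∀ (r : ℕ) (f : ℤ[X]), 1 ≤ f.natDegree → ∀ a b : Fin r → ℤ, (∀ i, a i ≠ 0) →
    (∀ i, b i ≠ 0) → ∀ T : Finset Nat.Primes,
      (∀ p : Nat.Primes, ((p : ℕ) ≤ 2 * f.natDegree ∨ ((p : ℕ) : ℤ) ∣ f.leadingCoeff * ∏ i, (a i * b i)) → p ∈ T) →
      ∀ N : ℕ, NearAll α (WB f a b T N) := by
  classical
  have := countable_pol
  have h0 := pow_ae_int' (ι := Σ r : ℕ, ℤ[X] × (Fin r → ℤ) × (Fin r → ℤ) × Finset Nat.Primes × ℕ)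
    (fun i k => ¬ WB i.2.1 i.2.2.1 i.2.2.2.1 i.2.2.2.2.1 i.2.2.2.2.2 k)
  filter_upwards [h0] with α h1 hα r f hf a b ha hb T hT N
  have h2 := h1 hα ⟨r, f, a, b, T, N⟩ (fun U => log_int _ U (by
    obtain ⟨X₀, hX⟩ := Pool.Agent.Results.MP_e426f4_ag.ProductsOfConics.result r f hf a b ha hb T hT N U
    refine ⟨X₀, fun X h => le_trans (le_of_eq ?_) (hX X h)⟩
    refine congrArg _ (congrArg _ ?_)
    ext k
    simp only [mem_filter]))
  intro c hc hca j D κ
  filter_upwards [h2 c hc hca j D κ] with n hn k hk hkn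
  exact not_not.1 (hn k hk hkn)

end Pool.Agent.Results.MP_e426f4_ag.ConicsNearPowers
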