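import Pool.Agent.Q117.LP.E
import Pool.Agent.Results.MP_e426f4_ag.ProductsOfConics

/-!
# Brauer-Manin obstruction for `yᵢ² - aᵢ zᵢ² = bᵢ t (f(t) + k)`, `±k` any integer of short intervals with many primes

Let `f` be an integral polynomial of positive degree, `aᵢ`, `bᵢ` nonzero integers. It is known (starting file
`ProductsOfConics`) that for all but `X / (log X) ^ U` of the integers `|k| ≤ X` families of points of
`W_k : yᵢ² - aᵢ zᵢ² = bᵢ t (f(t) + k) ≠ 0` over the `ℚ_p`, `p` in `T`, and of a real point, can be approximated by rational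
points, if the sum of the invariants of each `(aᵢ, t)` at these points is `0` or if the degree of `f` is odd. Here: there are
intervals `[n, n + D]` of bounded length with `M` primes (`D` depends on `M` only) such that this holds for ALL integers `k` with
`|k|` in the interval, in particular for both signs of all the primes in it. There are at least `X / (log X) ^ B` such `n` up to
`X`, where `B` depends on `M` only, and there is one sequence of intervals, with more and more primes, such that for all `f`, `a`,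
`b`, `T`, `N` this holds for all but finitely many of the intervals.

Method: the Maynard-Tao theorem with at least `X / (log X) ^ B` values (`Pool/Agent/Q117/LP`), so that sets with at most
`X / (log X) ^ U` elements, for all `U`, can be avoided.
-/

set_option autoImplicit false

namespace Pool.Agent.Results.MP_e426f4_ag.StringsOfPrimes

open Finset Filter Topology Polynomial
open Pool.Agent.Results.MP_e426f4_ag.ProductsOfConics (WB)

theorem countable_pol : Countable ℤ[X] :=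
  Cardinal.mk_le_aleph0_iff.1 (by
    refine (Polynomial.cardinalMk_le_max (R := ℤ)).trans ?_
    simp)

/-- `T` contains the primes `p ≤ 2 deg f` and the primes which divide the leading coefficient of `f` or some `aᵢ bᵢ` -/
def Big {r : ℕ} (f : ℤ[X]) (a b : Fin r → ℤ) (T : Finset Nat.Primes) : Prop :=
  ∀ p : Nat.Primes, ((p : ℕ) ≤ 2 * f.natDegree ∨ ((p : ℕ) : ℤ) ∣ f.leadingCoeff * ∏ i, (a i * b i)) → p ∈ T

theorem few {r : ℕ} (f : ℤ[X]) (hf : 1 ≤ f.natDegree) (a b : Fin r → ℤ) (ha : ∀ i, a i ≠ 0) (hb : ∀ i, b i ≠ 0)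
    (T : Finset Nat.Primes) (hT : Big f a b T) (N : ℕ) :
    Pool.Agent.Q117.LP.Thin (fun n : ℕ => ¬ WB f a b T N n ∨ ¬ WB f a b T N (-(n : ℤ))) := by
  classical
  refine Pool.Agent.Q117.LP.thin_int (fun k => ¬ WB f a b T N k) fun U => ?_
  obtain ⟨X₀, hX₀⟩ := Pool.Agent.Results.MP_e426f4_ag.ProductsOfConics.result r f hf a b ha hb T hT N U
  refine ⟨X₀, fun X hX => ⟨_, fun k hk h => ?_, hX₀ X hX⟩⟩
  rw [mem_filter]
  exact ⟨hk, h⟩

/-- **Theorem.** -/
theorem result : ∃ D B : ℕ → ℕ,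
    (∀ (r : ℕ) (f : ℤ[X]), 1 ≤ f.natDegree → ∀ a b : Fin r → ℤ, (∀ i, a i ≠ 0) → (∀ i, b i ≠ 0) →
      ∀ T : Finset Nat.Primes, Big f a b T → ∀ N M : ℕ, ∀ᶠ X : ℕ in atTop,
        (X : ℝ) / Real.log X ^ (B M) ≤ ({n : ℕ | n ∈ Set.Icc 1 X ∧ M ≤ ((Icc n (n + D M)).filter Nat.Prime).card ∧
          ∀ k : ℤ, (n : ℤ) ≤ |k| → |k| ≤ n + D M → WB f a b T N k}.ncard : ℝ)) ∧
    ∃ n : ℕ → ℕ, (∀ M, M ≤ n M ∧ M ≤ ((Icc (n M) (n M + D M)).filter Nat.Prime).card) ∧
      ∀ (r : ℕ) (f : ℤ[X]), 1 ≤ f.natDegree → ∀ a b : Fin r → ℤ, (∀ i, a i ≠ 0) → (∀ i, b i ≠ 0) →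
        ∀ T : Finset Nat.Primes, Big f a b T → ∀ N : ℕ, ∀ᶠ M : ℕ in atTop,
          ∀ k : ℤ, (n M : ℤ) ≤ |k| → |k| ≤ n M + D M → WB f a b T N k := by
  obtain ⟨D, B, h1, h2⟩ := Pool.Agent.Q117.LP.main
  refine ⟨D, B, fun r f hf a b ha hb T hT N M => ?_, ?_⟩
  · filter_upwards [h1 _ (few f hf a b ha hb T hT N) M] with X hX
    refine hX.trans ?_
    rw [Nat.cast_le]
    refine Set.ncard_le_ncard ?_ ((Set.finite_Icc 1 X).subset fun n hn => hn.1)
    rintro n ⟨g1, g2, g3⟩
    refine ⟨g1, g2, fun k hk1 hk2 => ?_⟩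
    rw [Int.abs_eq_natAbs] at hk1 hk2
    have g4 := g3 k.natAbs (mem_Icc.2 ⟨by omega, by omega⟩)
    push Not at g4
    rcases Int.natAbs_eq k with h | h
    · rw [h]
      exact g4.1
    · rw [h]
      exact g4.2
  · have := countable_pol
    obtain ⟨n, hn1, hn2, hn3⟩ := h2 (Σ r : ℕ, ℤ[X] × (Fin r → ℤ) × (Fin r → ℤ) × Finset Nat.Primes × ℕ) inferInstance
      fun d k => ¬ WB d.2.1 d.2.2.1 d.2.2.2.1 d.2.2.2.2.1 d.2.2.2.2.2 k ∨
        ¬ WB d.2.1 d.2.2.1 d.2.2.2.1 d.2.2.2.2.1 d.2.2.2.2.2 (-(k : ℤ))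
    refine ⟨n, fun M => ⟨hn1 M, hn2 M⟩, fun r f hf a b ha hb T hT N => ?_⟩
    filter_upwards [hn3 ⟨r, f, a, b, T, N⟩ (few f hf a b ha hb T hT N)] with M g3 k hk1 hk2
    rw [Int.abs_eq_natAbs] at hk1 hk2
    have g4 := g3 k.natAbs (mem_Icc.2 ⟨by omega, by omega⟩)
    push Not at g4
    rcases Int.natAbs_eq k with h | h
    · rw [h]
      exact g4.1
    · rw [h]
      exact g4.2

end Pool.Agent.Results.MP_e426f4_ag.StringsOfPrimes
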