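import Pool.Agent.Q84.CW.C

/-!
# Weak approximation for products of conics with parameters near all primes of a string, without a condition on invariants

Let `f` be an integral polynomial of degree at least one, let `a_i`, `b_i` be nonzero integers, `i < r`, and let `W_k` be the
variety `y_i² - a_i z_i² = b_i t (f(t) + k) ≠ 0`, `i < r`, of dimension `r + 1`. Its smooth proper models are rationally
connected: they are fibred over the line in products of conics, with degenerate fibres over `0`, over the roots of `f + k` and,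
for `f` of even degree, over infinity; in the latter case the algebras `(a_i, t)` are unramified, and in general not constant.

For every `M` there is `D`, which depends on `M` only, with the following property. For ANY `M` families `(f, a, b, T, N)` (`T` a
finite set of primes which contains the small and the bad ones, `N` a precision) there is `B` such that for all large `X` at least
`X / (log X) ^ B` of the `n ≤ X` satisfy: the interval `[n, n + D]` contains at least `M` primes `p` such that for EACH of the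
families and for ALL integers `k` with `||k| - p| ≤ M` and `f(0) + k ≠ ± p`: all families of points of `W_k` over `ℚ_p`, `p` in
`T` (bounded by `N`) and of a real point can be approximated by rational points of `W_k`. So none of the algebras `(a_i, t)`, and
no other element of the Brauer group, gives an obstruction to the Hasse principle or to approximation at the places of `T`.

Proof: the exceptional set for the approximation with the Brauer-Manin condition for the `(a_i, t)` has at most `X / (log X) ^ U`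
elements (`TH204.HP.thmBr`, from the starting file `MP_e426f4_ag.ProductsOfConics`), and the condition can be met by the choice of a
point at an additional prime `q` of each class of units modulo `4 ∏ a_i` which divides `f(0) + k` exactly once (`TH204.HP.wcr_of`).
New (`Q84/CW`): strings of primes `p` such that ALL the `f(0) + k`, `k` near `± p`, of all the families are exactly divisible by
primes of all classes, by the Maynard-Tao theorem with at least `X / (log X) ^ B` values (`Q117.LP.core_log`) for linear forms in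
a progression; the differences of the forms have to avoid the shifts `± f(0) + h`, and `D` must not depend on the `f(0)`.
-/

set_option autoImplicit false

namespace Pool.Agent.Results.MP_e426f4_ag.WeakApproximationNearStrings

open Finset Filter Topology

instance (p : Nat.Primes) : Fact (p : ℕ).Prime := ⟨p.2⟩

/-- the point `(t, y, z)` with coordinates in the field `F` lies on `W_k : y_i² - a_i z_i² = b_i t (f(t) + k) ≠ 0`, `i < r` -/
def OnW {r : ℕ} (f : Polynomial ℤ) (a b : Fin r → ℤ) (k : ℤ) {F : Type} [Field F] (t : F) (y z : Fin r → F) : Prop :=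
  t ≠ 0 ∧ Polynomial.aeval t f + (k : F) ≠ 0 ∧
    ∀ i, y i ^ 2 - (a i : F) * z i ^ 2 = (b i : F) * (t * (Polynomial.aeval t f + (k : F)))

/-- weak approximation of level `N` at the primes of `T`: for all families of `p`-adic points `(t, y, z)` of `W_k`, `p` in `T`,
with coordinates of absolute value at most `p ^ N`, `|t| ≥ p ^ (-N)` and `|f(t) + k| ≥ p ^ (-N)`, and for all real points of
`W_k` there is a rational point `(s, Y, Z)` of `W_k` whose coordinates are at the distance at most `p ^ (-N)` from those of the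
given point, for all `p` in `T`, and such that `s` has the same sign as the coordinate `t` of the real point. -/
def WA {r : ℕ} (f : Polynomial ℤ) (a b : Fin r → ℤ) (T : Finset Nat.Primes) (N : ℕ) (k : ℤ) : Prop :=
  ∀ (t : (p : Nat.Primes) → ℚ_[(p : ℕ)]) (y z : (p : Nat.Primes) → Fin r → ℚ_[(p : ℕ)]) (tr : ℝ) (yr zr : Fin r → ℝ),
    (∀ p ∈ T, OnW f a b k (t p) (y p) (z p) ∧ ‖t p‖ ≤ ((p : ℕ) : ℝ) ^ N ∧ (∀ i, ‖y p i‖ ≤ ((p : ℕ) : ℝ) ^ N) ∧
      (∀ i, ‖z p i‖ ≤ ((p : ℕ) : ℝ) ^ N) ∧ (((p : ℕ) : ℝ) ^ N)⁻¹ ≤ ‖t p‖ ∧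
      (((p : ℕ) : ℝ) ^ N)⁻¹ ≤ ‖Polynomial.aeval (t p) f + (k : ℚ_[(p : ℕ)])‖) →
    OnW f a b k tr yr zr →
    ∃ (s : ℚ) (Y Z : Fin r → ℚ), OnW f a b k s Y Z ∧ 0 < (s : ℝ) * tr ∧
      ∀ p ∈ T, ‖(s : ℚ_[(p : ℕ)]) - t p‖ ≤ (((p : ℕ) : ℝ) ^ N)⁻¹ ∧
        ∀ i, ‖(Y i : ℚ_[(p : ℕ)]) - y p i‖ ≤ (((p : ℕ) : ℝ) ^ N)⁻¹ ∧ ‖(Z i : ℚ_[(p : ℕ)]) - z p i‖ ≤ (((p : ℕ) : ℝ) ^ N)⁻¹

/-- `T` contains the primes `p ≤ 2 deg f` and those dividing the leading coefficient of `f` or some `a_i b_i` -/
def Big {r : ℕ} (f : Polynomial ℤ) (a b : Fin r → ℤ) (T : Finset Nat.Primes) : Prop :=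
  ∀ p : Nat.Primes, ((p : ℕ) ≤ 2 * f.natDegree ∨ ((p : ℕ) : ℤ) ∣ f.leadingCoeff * ∏ i, (a i * b i)) → p ∈ T

/-- for each of the `M` families and for all `k` with `||k| - p| ≤ M` and `f(0) + k ≠ ± p` weak approximation holds for `W_k` -/
def Fine {M : ℕ} (r : Fin M → ℕ) (f : Fin M → Polynomial ℤ) (a b : (l : Fin M) → Fin (r l) → ℤ)
    (T : Fin M → Finset Nat.Primes) (N : Fin M → ℕ) (p : ℕ) : Prop :=
  ∀ (l : Fin M) (k : ℤ), |(|k| - (p : ℤ))| ≤ (M : ℤ) → |(f l).eval 0 + k| ≠ (p : ℤ) →
    WA (f l) (a l) (b l) (T l) (N l) k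

open Classical in
/-- **Theorem.** -/
theorem result (M : ℕ) : ∃ D : ℕ, ∀ (r : Fin M → ℕ) (f : Fin M → Polynomial ℤ) (a b : (l : Fin M) → Fin (r l) → ℤ)
    (T : Fin M → Finset Nat.Primes) (N : Fin M → ℕ), (∀ l, 1 ≤ (f l).natDegree) → (∀ l i, a l i ≠ 0) → (∀ l i, b l i ≠ 0) →
    (∀ l, Big (f l) (a l) (b l) (T l)) →
    ∃ B : ℕ, ∀ᶠ X : ℕ in atTop, (X : ℝ) / (Real.log X) ^ B ≤
      (((Icc 1 X).filter fun n : ℕ => M ≤ ((Icc n (n + D)).filter fun p : ℕ => p.Prime ∧
        Fine r f a b T N p).card).card : ℝ) := by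
  obtain ⟨D, hD⟩ := Pool.Agent.Q84.CW.strings_wcr M
  refine ⟨D, fun r f a b T N hf ha hb hT => ?_⟩
  obtain ⟨B, hB⟩ := hD r f a b T N hf ha hb (fun l p hp => by
    apply hT l p
    rcases hp with h | h | ⟨i, h⟩
    · exact Or.inl h
    · exact Or.inr (h.mul_right _)
    · refine Or.inr (Dvd.dvd.mul_left (dvd_trans ?_ (dvd_prod_of_mem (fun i => a l i * b l i) (mem_univ i))) _)
      rcases h with h | h
      · exact h.mul_right _
      · exact h.mul_left _)
  refine ⟨B, ?_⟩
  filter_upwards [hB] with X hX
  refine hX.trans ?_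
  rw [Nat.cast_le]
  refine card_le_card fun n hn => ?_
  rw [mem_filter] at hn ⊢
  refine ⟨hn.1, hn.2.trans (card_le_card fun p hp => ?_)⟩
  rw [mem_filter] at hp ⊢
  exact ⟨hp.1, hp.2.1, fun l k hk hne => hp.2.2 l k hk hne⟩

end Pool.Agent.Results.MP_e426f4_ag.WeakApproximationNearStrings
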